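import Pool.Agent.CorG.Stp
import Pool.Agent.CorA.P_AVS

/-!
# GLS, block AVSS: a holomorphic function is large on the squares of a complete antichain
-/

set_option autoImplicit false

namespace Pool.Agent.CorG

open Complex Metric Set Filter Topology MeasureTheory
open Pool.Corona91698f Pool.Agent.CorE Pool.Agent.CorA
open scoped Real BoundedContinuousFunction

namespace AVSS_

open Pool.Agent.CorA.AVS_ (log_three log_ge)

/-- the size of a factor -/
noncomputable def ts (a : ℂ) (x : List D) : ℝ :=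
  max (dist (Phi x ctr) a) (77 / 100 * (1 / 3) ^ x.length) / (9 / 5)

theorem ts_pos (a : ℂ) (x : List D) : 0 < ts a x := by
  unfold ts
  have h1 : (0 : ℝ) < 77 / 100 * (1 / 3) ^ x.length := by positivity
  have h2 := le_max_right (dist (Phi x ctr) a) (77 / 100 * (1 / 3) ^ x.length)
  positivity

theorem ts_cons (a : ℂ) (d : D) (x : List D) : ts a (d :: x) = ts (psi d a) x / 3 := by
  unfold ts
  have h1 : dist (Phi (d :: x) ctr) a = dist (Phi x ctr) (psi d a) / 3 := by
    rw [Phi_cons]
    conv_lhs => rw [← phi_psi d a]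
    exact dist_phi' d _ _
  have h2 : 77 / 100 * ((1 / 3 : ℝ) ^ x.length * (1 / 3)) =
      (77 / 100 * (1 / 3 : ℝ) ^ x.length) / 3 := by ring
  rw [h1, List.length_cons, pow_succ, h2, max_div_div_right (by norm_num : (0 : ℝ) ≤ 3)]
  ring

theorem far_log (a : ℂ) (x : List D) (ha : 1 ≤ dist a ctr) : -2 ≤ Real.log (ts a x) := by
  have h1 := GEO_.near x
  have h2 : (0 : ℝ) < (1 / 3) ^ x.length := by positivity
  have h3 := dist_triangle a (Phi x ctr) ctr
  rw [dist_comm a (Phi x ctr)] at h3
  have h4 : (29 / 100 : ℝ) ≤ dist (Phi x ctr) a := by linarith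
  have h5 : (29 / 180 : ℝ) ≤ ts a x := by
    unfold ts
    rw [le_div_iff₀ (by norm_num)]
    refine le_trans ?_ (le_max_left _ _)
    linarith
  have h6 := log_ge (n := 2) (ts_pos a x) (by norm_num; linarith)
  push_cast at h6
  linarith

theorem mean_log (n : ℕ) (P : List D → Prop) :
    ∀ a : ℂ, (-4 : ℝ) ≤ ∑ x ∈ stp n P, (1 / 4) ^ x.length * Real.log (ts a x) := by
  refine stp_induction (motive := fun n P =>
    ∀ a : ℂ, (-4 : ℝ) ≤ ∑ x ∈ stp n P, (1 / 4) ^ x.length * Real.log (ts a x)) ?_ ?_ n P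
  · intro n P h a
    have h0 : (1 / 36 : ℝ) ≤ ts a [] := by
      unfold ts
      rw [le_div_iff₀ (by norm_num)]
      refine le_trans ?_ (le_max_right _ _)
      norm_num
    have h1 := log_ge (n := 4) (ts_pos a []) (by norm_num; linarith)
    rw [stp_stop h]
    simp only [Finset.sum_singleton, List.length_nil, pow_zero, one_mul]
    push_cast at h1
    linarith
  · intro n P h ih a
    rw [sum_stp_succ h]
    obtain ⟨d₀, hd₀⟩ := exists_far a
    have key : ∀ d : D, ∑ x ∈ stp n (fun x => P (d :: x)),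
        (1 / 4 : ℝ) ^ (d :: x).length * Real.log (ts a (d :: x)) =
        1 / 4 * (∑ x ∈ stp n (fun x => P (d :: x)),
          (1 / 4) ^ x.length * Real.log (ts (psi d a) x) - Real.log 3) := by
      intro d
      have e1 : Real.log 3 = ∑ x ∈ stp n (fun x => P (d :: x)),
          (1 / 4 : ℝ) ^ x.length * Real.log 3 := by
        rw [← Finset.sum_mul, stp_weight, one_mul]
      conv_rhs => rw [e1]
      rw [← Finset.sum_sub_distrib, Finset.mul_sum]
      refine Finset.sum_congr rfl fun x _ => ?_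
      rw [ts_cons, Real.log_div (ts_pos _ _).ne' (by norm_num), List.length_cons, pow_succ]
      ring
    have low : ∀ d : D, (-1 / 2 : ℝ) - 1 / 4 * Real.log 3 +
        (if d = d₀ then -(1 / 2) else (0 : ℝ)) ≤
        ∑ x ∈ stp n (fun x => P (d :: x)),
          (1 / 4 : ℝ) ^ (d :: x).length * Real.log (ts a (d :: x)) := by
      intro d
      rw [key]
      by_cases hd : d = d₀
      · rw [if_pos hd]
        have := ih d (psi d a)
        linarith
      · rw [if_neg hd]
        have h5 : (-2 : ℝ) ≤ ∑ x ∈ stp n (fun x => P (d :: x)),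
            (1 / 4) ^ x.length * Real.log (ts (psi d a) x) := by
          have e2 : (-2 : ℝ) = ∑ x ∈ stp n (fun x => P (d :: x)), (1 / 4 : ℝ) ^ x.length * (-2) := by
            rw [← Finset.sum_mul, stp_weight, one_mul]
          rw [e2]
          refine Finset.sum_le_sum fun x _ => ?_
          exact mul_le_mul_of_nonneg_left (far_log (psi d a) x (hd₀ d hd)) (by positivity)
        linarith
    refine le_trans ?_ (Finset.sum_le_sum fun d _ => low d)
    rw [Finset.sum_add_distrib, Finset.sum_ite_eq' Finset.univ d₀, if_pos (Finset.mem_univ _),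
      Finset.sum_const, Finset.card_univ, Fintype.card_prod, Fintype.card_bool]
    have h6 := log_three
    simp only [nsmul_eq_mul]
    push_cast
    linarith

/-- the sum of the products -/
theorem sum_prod (n : ℕ) (P : List D → Prop) (m : ℕ) (a : Fin m → ℂ) :
    Real.exp (-(4 * m)) ≤ ∑ x ∈ stp n P, (1 / 4) ^ x.length * ∏ i, ts (a i) x := by
  have h1 : ∀ x ∈ stp n P, (1 / 4 : ℝ) ^ x.length *
      (Real.exp (-(4 * (m : ℝ))) * (1 + (∑ i, Real.log (ts (a i) x) + 4 * m))) ≤
      (1 / 4) ^ x.length * ∏ i, ts (a i) x := by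
    intro x _
    refine mul_le_mul_of_nonneg_left ?_ (by positivity)
    have h2 : ∏ i, ts (a i) x = Real.exp (∑ i, Real.log (ts (a i) x)) := by
      rw [Real.exp_sum]
      exact Finset.prod_congr rfl fun i _ => (Real.exp_log (ts_pos _ _)).symm
    have h3 : Real.exp (∑ i, Real.log (ts (a i) x)) =
        Real.exp (-(4 * (m : ℝ))) * Real.exp (∑ i, Real.log (ts (a i) x) + 4 * m) := by
      rw [← Real.exp_add]
      congr 1
      ring
    rw [h2, h3]
    refine mul_le_mul_of_nonneg_left ?_ (Real.exp_pos _).le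
    have h4 := Real.add_one_le_exp (∑ i, Real.log (ts (a i) x) + 4 * (m : ℝ))
    linarith
  refine le_trans ?_ (Finset.sum_le_sum h1)
  have e0 : ∑ x ∈ stp n P, (1 / 4 : ℝ) ^ x.length *
      (Real.exp (-(4 * (m : ℝ))) * (1 + (∑ i, Real.log (ts (a i) x) + 4 * m))) =
      Real.exp (-(4 * (m : ℝ))) * ((1 + 4 * m) * ∑ x ∈ stp n P, (1 / 4 : ℝ) ^ x.length +
        ∑ i, ∑ x ∈ stp n P, (1 / 4 : ℝ) ^ x.length * Real.log (ts (a i) x)) := by
    rw [Finset.sum_comm, Finset.mul_sum, ← Finset.sum_add_distrib, Finset.mul_sum]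
    refine Finset.sum_congr rfl fun x _ => ?_
    rw [← Finset.mul_sum]
    ring
  rw [e0, stp_weight]
  have h5 : (-4 : ℝ) * m ≤ ∑ i : Fin m, ∑ x ∈ stp n P,
      (1 / 4 : ℝ) ^ x.length * Real.log (ts (a i) x) := by
    refine le_trans (le_of_eq ?_) (Finset.sum_le_sum fun i _ => mean_log n P (a i))
    rw [Finset.sum_const, Finset.card_univ, Fintype.card_fin, nsmul_eq_mul]
    ring
  have h6 : Real.exp (-(4 * (m : ℝ))) * 1 ≤ Real.exp (-(4 * (m : ℝ))) *
      ((1 + 4 * m) * 1 + ∑ i : Fin m, ∑ x ∈ stp n P,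
        (1 / 4 : ℝ) ^ x.length * Real.log (ts (a i) x)) :=
    mul_le_mul_of_nonneg_left (by linarith) (Real.exp_pos _).le
  rw [mul_one] at h6
  exact h6

end AVSS_

open AVSS_ in
theorem p_AVSS (hLGA : T_LGA) (hPRD : T_PRD) : T_AVSS := by
  obtain ⟨C, hC, hL⟩ := hLGA (8 / 9) (by norm_num) (by norm_num)
  refine ⟨C + 4 * C, by linarith, ?_⟩
  intro G M μ y₀ n P hG hM hμ hy hGy
  have hyM : ‖G y₀‖ ≤ M := hM y₀ (by rw [mem_ball]; linarith)
  have hM0 : 0 < M := by linarith
  obtain ⟨m, a, hm, hlow⟩ := hL ctr (9 / 10) M μ G y₀ (by norm_num) hμ hG hM (by linarith) hGy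
  choose zz hz1 hz2 using fun x : List D => hPRD m a (Phi x ctr) (77 / 100 * (1 / 3) ^ x.length)
    (by positivity)
  refine ⟨zz, fun x => ?_, ?_⟩
  · have h2 := dist_Psi x (zz x) (Phi x ctr)
    rw [Psi_Phi, hz1] at h2
    rw [h2]
    have h3 : (3 : ℝ) ^ x.length * (1 / 3) ^ x.length = 1 := by
      rw [← mul_pow]
      norm_num
    linear_combination (77 / 100 : ℝ) * h3
  · set A : ℝ := M * (μ / M) ^ C with hA
    have hA0 : 0 < A := by positivity
    have h1 : ∀ x ∈ stp n P, (1 / 4 : ℝ) ^ x.length * (A * ∏ i, ts (a i) x) ≤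
        (1 / 4) ^ x.length * ‖G (zz x)‖ := by
      intro x _
      refine mul_le_mul_of_nonneg_left ?_ (by positivity)
      have h2 : dist (zz x) ctr ≤ 8 / 9 * (9 / 10) := by
        have h3 := dist_triangle (zz x) (Phi x ctr) ctr
        rw [hz1] at h3
        have h4 := GEO_.near x
        have h5 : (0 : ℝ) < (1 / 3) ^ x.length := by positivity
        have h6 : ((1 : ℝ) / 3) ^ x.length ≤ 1 := pow_le_one₀ (by norm_num) (by norm_num)
        linarith
      refine le_trans ?_ (hlow (zz x) h2)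
      refine mul_le_mul_of_nonneg_left ?_ hA0.le
      have e1 : ∏ i, ts (a i) x =
          (∏ i, max (dist (Phi x ctr) (a i)) (77 / 100 * (1 / 3) ^ x.length)) / (9 / 5) ^ m := by
        unfold ts
        rw [Finset.prod_div_distrib, Finset.prod_const, Finset.card_univ, Fintype.card_fin]
      have e2 : ∏ i, (dist (zz x) (a i) / (2 * (9 / 10))) =
          (∏ i, dist (zz x) (a i)) / (9 / 5) ^ m := by
        rw [Finset.prod_div_distrib, Finset.prod_const, Finset.card_univ, Fintype.card_fin]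
        norm_num
      rw [e1, e2]
      exact div_le_div_of_nonneg_right (hz2 x) (by positivity)
    refine le_trans ?_ (Finset.sum_le_sum h1)
    have e3 : ∑ x ∈ stp n P, (1 / 4 : ℝ) ^ x.length * (A * ∏ i, ts (a i) x) =
        A * ∑ x ∈ stp n P, (1 / 4 : ℝ) ^ x.length * ∏ i, ts (a i) x := by
      rw [Finset.mul_sum]
      exact Finset.sum_congr rfl fun x _ => by ring
    rw [e3]
    have h7 := mul_le_mul_of_nonneg_left (sum_prod n P m a) hA0.le
    refine le_trans ?_ h7
    have hq : 0 < μ / M := by positivity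
    have h8 : (μ / M) ^ (C + 4 * C) = (μ / M) ^ C * (μ / M) ^ (4 * C) := Real.rpow_add hq _ _
    have h9 : (μ / M) ^ (4 * C) ≤ Real.exp (-(4 * m)) := by
      rw [Real.rpow_def_of_pos hq]
      refine Real.exp_le_exp.2 ?_
      have h10 : Real.log (μ / M) = -Real.log (M / μ) := by
        rw [← Real.log_inv, inv_div]
      rw [h10]
      linarith
    rw [h8, hA]
    calc M * ((μ / M) ^ C * (μ / M) ^ (4 * C))
        ≤ M * ((μ / M) ^ C * Real.exp (-(4 * m))) := by gcongr
      _ = M * (μ / M) ^ C * Real.exp (-(4 * m)) := by ring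

end Pool.Agent.CorG
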