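import Pool.Agent.CorG.Stp
import Pool.Agent.CorA.P_DCM

/-!
# GLS, block DCMS: Laurent decomposition with the holes of a complete antichain
-/

set_option autoImplicit false

namespace Pool.Agent.CorG

open Complex Metric Set Filter Topology MeasureTheory
open Pool.Corona91698f Pool.Agent.CorE Pool.Agent.CorA
open scoped Real BoundedContinuousFunction

namespace DCMS_

open Pool.Agent.CorA.DCM_

theorem otherS {n : ℕ} {P : List D → Prop} {u x x' : List D} (hx : x ∈ stp n P)
    (hx' : x' ∈ stp n P) {z : ℂ} (h : dist (Psi (u ++ x) z) ctr < 1)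
    (h' : dist (Psi (u ++ x') z) ctr < 1) : x = x' := by
  by_contra hne
  rw [Psi_append] at h h'
  have := stp_disj n P x hx x' hx' hne (Psi u z) h
  linarith

/-- the region between the square of `u` and those of the words `u ++ x` -/
theorem regS {N n : ℕ} {P : List D → Prop} {u : List D} (hu : u.length + n < N) {z : ℂ}
    (h1 : dist (Psi u z) ctr < 1)
    (h2 : ∀ x ∈ stp n P, 735 / 1000 < dist (Psi (u ++ x) z) ctr) :
    z ∈ OmR (73 / 100) N := by
  intro q hq
  rw [mem_lv] at hq
  rcases split u q z h1 (by omega) with ⟨y, hy⟩ | h3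
  · have hyl : u.length + y.length = N := by rw [← hq, hy, List.length_append]
    obtain ⟨x, hx, w, hw⟩ := stp_exists n P y (by omega)
    have e : q = (u ++ x) ++ w := by
      rw [hy, hw, List.append_assoc]
    have h4 := h2 x hx
    rw [e, Psi_append]
    refine down' (by norm_num) _ ?_
    linarith
  · linarith

theorem bound0 {N : ℕ} {v : List D} (hv : v.length < N) {H : ℂ → ℂ}
    (hH : DifferentiableOn ℂ H (OmR (73 / 100) N)) {A : ℝ}
    (hA : ∀ z ∈ X0 v, ‖H z‖ ≤ 3 ^ v.length * A) {z : ℂ}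
    (hz : 74 / 100 ≤ dist (Psi v z) ctr) :
    ‖HV v H z‖ ≤ 1000 * (‖cm v H‖ / dist z (cc v) +
      3 ^ v.length * A / (1 + dist (Psi v z) ctr) ^ 2) := by
  obtain ⟨r, hr⟩ : ∃ r : ℝ, r = (1 / 3) ^ v.length := ⟨_, rfl⟩
  obtain ⟨t, ht⟩ : ∃ t : ℝ, t = dist (Psi v z) ctr := ⟨_, rfl⟩
  obtain ⟨K, hK⟩ : ∃ K : ℝ, K = 3 ^ v.length := ⟨_, rfl⟩
  have hr0 : 0 < r := by rw [hr]; positivity
  have hK0 : 0 < K := by rw [hK]; positivity
  have hKr : K * r = 1 := by rw [hK, hr]; exact rr _
  have hd : dist z (cc v) = r * t := by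
    rw [ht, dPsi, ← hK]
    linear_combination (-dist z (cc v)) * hKr
  have hd' : ‖z - cc v‖ = r * t := by rw [← dist_eq_norm, hd]
  have ht0 : 74 / 100 ≤ t := by rw [ht]; exact hz
  have hS : ∀ ζ ∈ sphere (cc v) (735 / 1000 * (1 / 3) ^ v.length), ‖H ζ‖ ≤ K * A := by
    intro ζ hζ
    have h1 := sph hζ
    rw [hK]
    refine hA ζ ⟨by rw [h1]; norm_num, fun d => ?_⟩
    have := dist_psi_ge d (Psi v ζ)
    rw [h1] at this
    linarith
  have hA0 : 0 ≤ K * A := by
    have h1 : cc v + (735 / 1000 * (1 / 3) ^ v.length : ℝ) ∈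
        sphere (cc v) (735 / 1000 * (1 / 3) ^ v.length) := by
      rw [mem_sphere, dist_eq_norm, add_sub_cancel_left, Complex.norm_real, Real.norm_eq_abs,
        abs_of_pos (by positivity)]
    exact (norm_nonneg _).trans (hS _ h1)
  have hc := contS hv hH (s := 735 / 1000) (by norm_num) (by norm_num)
  have hzc : z - cc v ≠ 0 := by
    intro h
    rw [h, norm_zero] at hd'
    nlinarith
  have hfar : ∀ ζ ∈ sphere (cc v) (735 / 1000 * (1 / 3) ^ v.length),
      r * ((1 + t) / 400) ≤ ‖z - ζ‖ := by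
    intro ζ hζ
    rw [mem_sphere, ← hr] at hζ
    have h1 : dist z (cc v) ≤ dist z ζ + dist ζ (cc v) := dist_triangle _ _ _
    rw [← dist_eq_norm]
    nlinarith
  have hne : ∀ ζ ∈ sphere (cc v) (735 / 1000 * (1 / 3) ^ v.length), z - ζ ≠ 0 := by
    intro ζ hζ h
    have := hfar ζ hζ
    rw [h, norm_zero] at this
    have h2 : 0 < r * ((1 + t) / 400) := by positivity
    linarith
  -- splitting of the kernel
  have e1 : HV v H z = (z - cc v)⁻¹ * cm v H +
      (2 * π * I : ℂ)⁻¹ • ∮ ζ in C(cc v, 735 / 1000 * (1 / 3) ^ v.length),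
        ((ζ - cc v) / ((z - cc v) * (z - ζ))) • H ζ := by
    have h2pi : (2 * π * I : ℂ) ≠ 0 := by
      simp [Real.pi_ne_zero]
    have e2 : cm v H = (2 * π * I : ℂ)⁻¹ •
        ∮ ζ in C(cc v, 735 / 1000 * (1 / 3) ^ v.length), H ζ := by
      rw [cm_eq hv hH, smul_eq_mul, ← mul_assoc, inv_mul_cancel₀ h2pi, one_mul]
    have e3 : (z - cc v)⁻¹ * cm v H = (2 * π * I : ℂ)⁻¹ •
        ∮ ζ in C(cc v, 735 / 1000 * (1 / 3) ^ v.length), (z - cc v)⁻¹ • H ζ := by
      rw [circleIntegral.integral_smul, e2, smul_comm, smul_eq_mul (z - cc v)⁻¹]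
    have i1 : CircleIntegrable (fun ζ => (z - cc v)⁻¹ • H ζ) (cc v)
        (735 / 1000 * (1 / 3) ^ v.length) := by
      refine ContinuousOn.circleIntegrable (by positivity) ?_
      exact hc.const_smul ((z - cc v)⁻¹)
    have i2 : CircleIntegrable (fun ζ => ((ζ - cc v) / ((z - cc v) * (z - ζ))) • H ζ) (cc v)
        (735 / 1000 * (1 / 3) ^ v.length) := by
      refine ContinuousOn.circleIntegrable (by positivity) ?_
      have j1 : ContinuousOn (fun ζ : ℂ => (ζ - cc v) / ((z - cc v) * (z - ζ)))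
          (sphere (cc v) (735 / 1000 * (1 / 3) ^ v.length)) := by
        refine ContinuousOn.div (continuousOn_id.sub continuousOn_const)
          (continuousOn_const.mul (continuousOn_const.sub continuousOn_id)) ?_
        intro ζ hζ
        exact mul_ne_zero hzc (hne ζ hζ)
      exact j1.smul hc
    rw [e3, ← smul_add, ← circleIntegral.integral_add i1 i2, HV, ← smul_neg]
    congr 1
    have e4 : -(∮ ζ in C(cc v, 735 / 1000 * (1 / 3) ^ v.length), (ζ - z)⁻¹ • H ζ) =
        ∮ ζ in C(cc v, 735 / 1000 * (1 / 3) ^ v.length), (-1 : ℂ) • ((ζ - z)⁻¹ • H ζ) := by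
      rw [circleIntegral.integral_smul, neg_one_smul]
    rw [e4]
    refine circleIntegral.integral_congr (by positivity) fun ζ hζ => ?_
    have h1 := hne ζ hζ
    have h2 : ζ - z ≠ 0 := by
      intro h
      apply h1
      linear_combination -h
    simp only [smul_eq_mul]
    field_simp
    ring
  have h5 : ‖(2 * π * I : ℂ)⁻¹ • ∮ ζ in C(cc v, 735 / 1000 * (1 / 3) ^ v.length),
      ((ζ - cc v) / ((z - cc v) * (z - ζ))) • H ζ‖ ≤ 1000 * (K * A / (1 + t) ^ 2) := by
    have h6 := circleIntegral.norm_two_pi_i_inv_smul_integral_le_of_norm_le_const (c := cc v)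
      (f := fun ζ => ((ζ - cc v) / ((z - cc v) * (z - ζ))) • H ζ)
      (R := 735 / 1000 * (1 / 3) ^ v.length)
      (C := 735 / 1000 * r / ((r * t) * (r * ((1 + t) / 400))) * (K * A)) (by positivity) (by
        intro ζ hζ
        rw [norm_smul, norm_div, norm_mul, hd']
        have h7 := hfar ζ hζ
        have h8 : ‖ζ - cc v‖ = 735 / 1000 * r := by
          rw [← dist_eq_norm, mem_sphere.1 hζ, hr]
        rw [h8]
        have h9 : 0 < r * ((1 + t) / 400) := by positivity
        have h10 : 0 < r * t := by positivity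
        refine mul_le_mul ?_ (hS ζ hζ) (norm_nonneg _) (by positivity)
        gcongr)
    refine h6.trans ?_
    rw [← hr]
    have h11 : 735 / 1000 * r * (735 / 1000 * r / ((r * t) * (r * ((1 + t) / 400))) * (K * A)) =
        (735 / 1000) ^ 2 * 400 * (K * A) / (t * (1 + t)) := by
      have : (1 + t) ≠ 0 := by positivity
      have : t ≠ 0 := by positivity
      field_simp
    rw [h11, ← mul_div_assoc, div_le_div_iff₀ (by positivity) (by positivity)]
    have h12 : (735 / 1000 : ℝ) ^ 2 * 400 * (1 + t) ^ 2 ≤ 1000 * (t * (1 + t)) := by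
      have : (735 / 1000 : ℝ) ^ 2 * 400 * (1 + t) ≤ 1000 * t := by
        norm_num
        linarith
      nlinarith
    calc (735 / 1000 : ℝ) ^ 2 * 400 * (K * A) * (1 + t) ^ 2 =
          (K * A) * ((735 / 1000) ^ 2 * 400 * (1 + t) ^ 2) := by ring
      _ ≤ (K * A) * (1000 * (t * (1 + t))) := mul_le_mul_of_nonneg_left h12 hA0
      _ = 1000 * (K * A) * (t * (1 + t)) := by ring
  rw [← hK, ← ht, e1]
  refine (norm_add_le _ _).trans ?_
  rw [norm_mul, norm_inv, hd', hd]
  have h13 : (r * t)⁻¹ * ‖cm v H‖ ≤ 1000 * (‖cm v H‖ / (r * t)) := by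
    rw [mul_comm, ← div_eq_mul_inv]
    have : 0 ≤ ‖cm v H‖ / (r * t) := by positivity
    linarith
  linarith

end DCMS_

open DCM_ DCMS_ in
theorem p_DCMS : T_DCMS := by
  classical
  refine ⟨1000, by norm_num, ?_⟩
  intro N n P u H A hN hH hA
  have hlt : ∀ x ∈ stp n P, (u ++ x).length < N := by
    intro x hx
    have := stp_len n P x hx
    rw [List.length_append]
    omega
  let base : ℂ → ℂ := fun z => H z - ∑ x ∈ stp n P, HV (u ++ x) H z
  let inner : List D → ℂ → ℂ := fun x z =>
    HP (u ++ x) H z - ∑ x' ∈ (stp n P).erase x, HV (u ++ x') H z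
  have claim1 : ∀ x ∈ stp n P, ∀ z : ℂ, 735 / 1000 < dist (Psi (u ++ x) z) ctr →
      dist (Psi (u ++ x) z) ctr < 9 / 10 → base z = inner x z := by
    intro x hx z h1 h2
    have e1 := HVP (hlt x hx) hH h1 h2
    have e2 := Finset.add_sum_erase (stp n P) (fun x => HV (u ++ x) H z) hx
    simp only [base, inner]
    rw [← e2, e1]
    ring
  let Ho : ℂ → ℂ := fun z =>
    if h : ∃ x ∈ stp n P, dist (Psi (u ++ x) z) ctr < 4 / 5 then inner h.choose z else base z
  have claim2 : ∀ x ∈ stp n P, ∀ z : ℂ, dist (Psi (u ++ x) z) ctr < 9 / 10 → Ho z = inner x z := by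
    intro x hx z hz
    by_cases h : ∃ x ∈ stp n P, dist (Psi (u ++ x) z) ctr < 4 / 5
    · have h1 := h.choose_spec
      have h2 : h.choose = x := otherS (u := u) (z := z) h1.1 hx (by linarith [h1.2]) (by linarith)
      simp only [Ho]
      rw [dif_pos h, h2]
    · simp only [Ho]
      rw [dif_neg h]
      push Not at h
      exact claim1 x hx z (by have := h x hx; linarith) hz
  have claim3 : ∀ z : ℂ, (∀ x ∈ stp n P, 735 / 1000 < dist (Psi (u ++ x) z) ctr) →
      Ho z = base z := by
    intro z hz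
    by_cases h : ∃ x ∈ stp n P, dist (Psi (u ++ x) z) ctr < 4 / 5
    · have h1 := h.choose_spec
      simp only [Ho]
      rw [dif_pos h]
      exact (claim1 _ h1.1 z (hz _ h1.1) (by linarith [h1.2])).symm
    · simp only [Ho]
      rw [dif_neg h]
  refine ⟨Ho, fun x z => HV (u ++ x) H z, ?_, ?_, ?_⟩
  · intro z hz
    have hz1 : dist (Psi u z) ctr < 1 := hz
    refine DifferentiableAt.differentiableWithinAt ?_
    by_cases h : ∃ x ∈ stp n P, dist (Psi (u ++ x) z) ctr < 9 / 10
    · obtain ⟨x, hx, hd⟩ := h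
      have hop : IsOpen {z : ℂ | dist (Psi (u ++ x) z) ctr < 9 / 10} :=
        isOpen_lt ((differentiable_Psi _).continuous.dist continuous_const) continuous_const
      have h1 : DifferentiableAt ℂ (inner x) z := by
        refine (HP_diff (hlt x hx) hH hd).sub (DifferentiableAt.fun_sum fun x' hx' => ?_)
        have hne := Finset.ne_of_mem_erase hx'
        have hx'' := Finset.mem_of_mem_erase hx'
        refine HV_diff (hlt x' hx'') hH ?_
        by_contra hlt'
        push Not at hlt'
        exact hne (otherS hx'' hx (by linarith) (by linarith))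
      refine h1.congr_of_eventuallyEq ?_
      filter_upwards [hop.mem_nhds hd] with y hy
      exact claim2 x hx y hy
    · push Not at h
      have hop : IsOpen {z : ℂ | ∀ x ∈ stp n P, 735 / 1000 < dist (Psi (u ++ x) z) ctr} := by
        have : {z : ℂ | ∀ x ∈ stp n P, 735 / 1000 < dist (Psi (u ++ x) z) ctr}
            = ⋂ x ∈ stp n P, {z : ℂ | 735 / 1000 < dist (Psi (u ++ x) z) ctr} := by ext; simp
        rw [this]
        exact isOpen_biInter_finset fun x _ =>
          isOpen_lt continuous_const ((differentiable_Psi _).continuous.dist continuous_const)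
      have hzm : z ∈ {z : ℂ | ∀ x ∈ stp n P, 735 / 1000 < dist (Psi (u ++ x) z) ctr} :=
        fun x hx => by
          have := h x hx
          linarith
      have hzO : z ∈ OmR (73 / 100) N := regS hN hz1 hzm
      have h1 : DifferentiableAt ℂ base z :=
        (hH.differentiableAt ((isOpen_OmR _ N).mem_nhds hzO)).sub
          (DifferentiableAt.fun_sum fun x hx => HV_diff (hlt x hx) hH (hzm x hx))
      refine h1.congr_of_eventuallyEq ?_
      filter_upwards [hop.mem_nhds hzm] with y hy
      exact claim3 y hy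
  · intro z _ h2
    rw [claim3 z h2]
    simp only [base]
    ring
  · intro x hx z hz
    exact bound0 (hlt x hx) hH (A := A x) (fun y hy => hA x hx y hy) hz

end Pool.Agent.CorG
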