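import Pool.Agent.CorG.Stp
import Pool.Agent.CorA.P_GLL

/-!
# GLS: the stopping-time growth lemma from its blocks
-/

set_option autoImplicit false

namespace Pool.Agent.CorG

open Complex Metric Set Filter Topology MeasureTheory
open Pool.Corona91698f Pool.Agent.CorE Pool.Agent.CorA
open scoped Real BoundedContinuousFunction

namespace GLS_

open Pool.Agent.CorA.GLL_ (le_of_Psi Phi_le far dist_cc dist_app)

/-- the bound of one term near the square of `u` -/
theorem term {C : ℝ} (hC : 0 < C) {u x' : List D} (hne : x' ≠ [])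
    {z : ℂ} (hy : ∀ e : D, 74 / 100 ≤ dist (psi e (Psi u z)) ctr) {m b v : ℝ} (hm : 0 ≤ m)
    (hb : 0 ≤ b)
    (h : v ≤ C * (m / dist z (cc (u ++ x')) + 3 ^ (u ++ x').length * b /
      (1 + dist (Psi (u ++ x') z) ctr) ^ 2)) :
    (1 / 3) ^ u.length * v ≤ 10000 * C * (m + (1 / 3) ^ x'.length * b) := by
  obtain ⟨-, h2⟩ := far hy hne
  rw [dist_cc, dist_app, List.length_append] at h
  obtain ⟨l, hl⟩ : ∃ l : ℕ, l = x'.length := ⟨_, rfl⟩
  rw [← hl] at h ⊢
  set t := dist (Psi u z) (Phi x' ctr) with ht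
  have ht0 : 0 < t := by linarith
  have h3 : (0 : ℝ) < (1 / 3) ^ u.length := by positivity
  have e1 : m / ((1 / 3) ^ u.length * t) ≤ 3 ^ u.length * (100 * m) := by
    rw [div_le_iff₀ (by positivity)]
    have e2 : (3 : ℝ) ^ u.length * (100 * m) * ((1 / 3) ^ u.length * t) = m * (100 * t) := by
      have : (3 : ℝ) ^ u.length * (1 / 3) ^ u.length = 1 := by
        rw [← mul_pow]
        norm_num
      calc _ = (3 : ℝ) ^ u.length * (1 / 3) ^ u.length * (m * (100 * t)) := by ring
        _ = _ := by rw [this, one_mul]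
    rw [e2]
    nlinarith
  have e3 : 3 ^ (u.length + l) * b / (1 + 3 ^ l * t) ^ 2 ≤
      3 ^ u.length * (10000 * ((1 / 3) ^ l * b)) := by
    rw [div_le_iff₀ (by positivity)]
    have e4 : ((3 : ℝ) ^ l) ^ 2 * (1 / 10000) ≤ (1 + 3 ^ l * t) ^ 2 := by
      have e5 : (3 : ℝ) ^ l * (1 / 100) ≤ 1 + 3 ^ l * t := by
        have : (3 : ℝ) ^ l * (1 / 100) ≤ 3 ^ l * t := by gcongr
        linarith
      calc ((3 : ℝ) ^ l) ^ 2 * (1 / 10000) = ((3 : ℝ) ^ l * (1 / 100)) ^ 2 := by ring
        _ ≤ _ := by gcongr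
    have e6 : (1 / 3 : ℝ) ^ l * 3 ^ l = 1 := by
      rw [← mul_pow]
      norm_num
    calc 3 ^ (u.length + l) * b = 3 ^ u.length * (10000 * ((1 / 3) ^ l * b)) *
          (((3 : ℝ) ^ l) ^ 2 * (1 / 10000)) := by
          rw [pow_add]
          calc (3 : ℝ) ^ u.length * 3 ^ l * b =
              3 ^ u.length * b * 3 ^ l * 1 := by ring
            _ = 3 ^ u.length * b * 3 ^ l * ((1 / 3 : ℝ) ^ l * 3 ^ l) := by rw [e6]
            _ = _ := by ring
      _ ≤ _ := by gcongr
  calc (1 / 3) ^ u.length * v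
      ≤ (1 / 3) ^ u.length * (C * (m / ((1 / 3) ^ u.length * t) +
        3 ^ (u.length + l) * b / (1 + 3 ^ l * t) ^ 2)) := by gcongr
    _ ≤ (1 / 3) ^ u.length * (C * (3 ^ u.length * (100 * m) +
        3 ^ u.length * (10000 * ((1 / 3) ^ l * b)))) := by gcongr
    _ = ((1 / 3 : ℝ) ^ u.length * 3 ^ u.length) * (C * (100 * m + 10000 * ((1 / 3) ^ l * b))) := by
        ring
    _ = C * (100 * m + 10000 * ((1 / 3) ^ l * b)) := by
        rw [← mul_pow]
        norm_num
    _ ≤ _ := by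
        have : 0 ≤ C * m := by positivity
        nlinarith

theorem X0_ctr (v : List D) : Phi v ctr ∈ X0 v := by
  have h := Pool.Agent.CorA.GLL_.ctr_nodeX
  refine ⟨?_, fun d => ?_⟩
  · rw [Psi_Phi, dist_self]
    norm_num
  · rw [Psi_Phi]
    have h1 : dist (psi d ctr) ctr ^ 2 = 2 := by
      rw [dist_sq]
      rcases d with ⟨a, b⟩
      cases a <;> cases b <;> norm_num [psi, dig, ctr]
    have h2 : 0 ≤ dist (psi d ctr) ctr := dist_nonneg
    nlinarith

end GLS_

open GLS_

open Pool.Agent.CorA.GLL_ (le_of_Psi Phi_le far dist_cc dist_app)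

theorem p_GLS (hAVSS : T_AVSS) (hDCMS : T_DCMS) (hHVSS : T_HVSS) : T_GLS := by
  obtain ⟨Ca, hCa, hA⟩ := hAVSS
  obtain ⟨C₁, hC₁, hD⟩ := hDCMS
  obtain ⟨Ch, hCh, hH⟩ := hHVSS
  refine ⟨20000 * C₁ + (4 : ℝ) ^ Ca * (1 + C₁ * Ch) + Ca, ?_, ?_⟩
  · have : 0 < (4 : ℝ) ^ Ca := by positivity
    have : 0 < (4 : ℝ) ^ Ca * (1 + C₁ * Ch) := by positivity
    linarith
  intro N n P u H b A K y₀ hn hP0 hN hHd hbK hA0 hK hy₀ hy₁ hb
  obtain ⟨C, hCd⟩ : ∃ C : ℝ, C = 20000 * C₁ + (4 : ℝ) ^ Ca * (1 + C₁ * Ch) + Ca := ⟨_, rfl⟩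
  rw [← hCd]
  have h4 : 0 < (4 : ℝ) ^ Ca := by positivity
  have h4' : 0 < (4 : ℝ) ^ Ca * (1 + C₁ * Ch) := by positivity
  have hb0 : ∀ x ∈ stp n P, 0 ≤ b x := by
    intro x hx
    have h1 := hb x hx (Phi (u ++ x) ctr) (X0_ctr _)
    have h2 := (norm_nonneg _).trans h1
    have h3 : (0 : ℝ) < 3 ^ (u ++ x).length := by positivity
    exact (mul_nonneg_iff_of_pos_left h3).1 h2
  obtain ⟨Ho, Hv, hHo, hdec, hHv⟩ := hD N n P u H b hN hHd hb
  have hne : ∀ x ∈ stp n P, x ≠ [] := stp_ne hn hP0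
  obtain ⟨T, hTd⟩ : ∃ T : ℝ, T = ∑ x ∈ stp n P, ((3 / 4) ^ x.length * b x + ‖cm (u ++ x) H‖) :=
    ⟨_, rfl⟩
  rw [← hTd]
  have hT : 0 ≤ T := by
    rw [hTd]
    refine Finset.sum_nonneg fun x hx => ?_
    have := hb0 x hx
    positivity
  have hKC : 1 ≤ K ^ C := Real.one_le_rpow hK (by rw [hCd]; positivity)
  have hKCa : K ^ Ca ≤ K ^ C := Real.rpow_le_rpow_of_exponent_le hK (by rw [hCd]; linarith)
  -- the sum of the terms near the square of `u`
  have hsum : ∀ z : ℂ, (∀ e : D, 74 / 100 ≤ dist (psi e (Psi u z)) ctr) →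
      (∀ x ∈ stp n P, 74 / 100 ≤ dist (Psi (u ++ x) z) ctr) ∧
      (1 / 3) ^ u.length * ∑ x ∈ stp n P, ‖Hv x z‖ ≤ 10000 * C₁ * T := by
    intro z hz
    have h1 : ∀ x ∈ stp n P, 74 / 100 ≤ dist (Psi (u ++ x) z) ctr := by
      intro x hx
      rw [Psi_append]
      exact (far hz (hne x hx)).1
    refine ⟨h1, ?_⟩
    rw [Finset.mul_sum, hTd, Finset.mul_sum]
    refine Finset.sum_le_sum fun x hx => ?_
    refine (term hC₁ (hne x hx) hz (norm_nonneg _) (hb0 x hx)
      (hHv x hx z (h1 x hx))).trans ?_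
    have e1 : (1 / 3 : ℝ) ^ x.length ≤ (3 / 4) ^ x.length :=
      pow_le_pow_left₀ (by norm_num) (by norm_num) _
    have e2 := mul_le_mul_of_nonneg_right e1 (hb0 x hx)
    have e3 : 0 ≤ 10000 * C₁ := by positivity
    exact mul_le_mul_of_nonneg_left (by linarith) e3
  by_cases hcase : A / 2 ≤ 10000 * C₁ * T
  · calc A ≤ 20000 * C₁ * T := by linarith
      _ ≤ C * K ^ C * T := by
          refine mul_le_mul_of_nonneg_right ?_ hT
          have h0 : 0 ≤ C := by rw [hCd]; positivity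
          have h01 : 20000 * C₁ ≤ C := by rw [hCd]; linarith
          have h02 : C * 1 ≤ C * K ^ C := mul_le_mul_of_nonneg_left hKC h0
          linarith
  · push Not at hcase
    obtain ⟨G, hG⟩ : ∃ G : ℂ → ℂ, G = fun y => (((1 / 3) ^ u.length : ℝ) : ℂ) * Ho (Phi u y) :=
      ⟨_, rfl⟩
    have hGn : ∀ y, ‖G y‖ = (1 / 3) ^ u.length * ‖Ho (Phi u y)‖ := by
      intro y
      rw [hG]
      simp only [norm_mul, Complex.norm_real]
      rw [Real.norm_of_nonneg (by positivity)]
    have hGd : DifferentiableOn ℂ G {y | dist y ctr < 1} := by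
      rw [hG]
      refine DifferentiableOn.const_mul ?_ _
      refine hHo.comp (differentiable_Phi u).differentiableOn fun y hy => ?_
      show dist (Psi u (Phi u y)) ctr < 1
      rw [Psi_Phi]
      exact hy
    have hu3 : (1 / 3 : ℝ) ^ u.length * 3 ^ u.length = 1 := by
      rw [← mul_pow]
      norm_num
    -- the circle
    have hcir : ∀ y, dist y ctr = 9 / 10 → ‖G y‖ ≤ 2 * K * A := by
      intro y hy
      obtain ⟨z, hz⟩ : ∃ z, z = Phi u y := ⟨_, rfl⟩
      have hPz : Psi u z = y := by rw [hz, Psi_Phi]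
      have h1 : ∀ e : D, 74 / 100 ≤ dist (psi e (Psi u z)) ctr := by
        intro e
        rw [hPz]
        have := dist_psi_ge e y
        linarith
      obtain ⟨h2, h3⟩ := hsum z h1
      have h5 := hdec z (by rw [hPz, hy]; norm_num) (fun x hx => by
        have := h2 x hx
        linarith)
      have h6 : ‖Ho z‖ ≤ ‖H z‖ + ∑ x ∈ stp n P, ‖Hv x z‖ := by
        have e1 : Ho z = H z - ∑ x ∈ stp n P, Hv x z := by
          rw [h5]
          ring
        rw [e1]
        exact (norm_sub_le _ _).trans (by gcongr; exact norm_sum_le _ _)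
      have h7 := hbK z (by rw [hPz, hy])
      have h8 : (1 / 3) ^ u.length * ‖H z‖ ≤ K * A := by
        calc (1 / 3) ^ u.length * ‖H z‖ ≤ (1 / 3) ^ u.length * (3 ^ u.length * (K * A)) := by
              gcongr
          _ = (1 / 3 : ℝ) ^ u.length * 3 ^ u.length * (K * A) := by ring
          _ = K * A := by rw [hu3, one_mul]
      rw [hGn, ← hz]
      calc (1 / 3) ^ u.length * ‖Ho z‖
          ≤ (1 / 3) ^ u.length * (‖H z‖ + ∑ x ∈ stp n P, ‖Hv x z‖) := by gcongr
        _ = (1 / 3) ^ u.length * ‖H z‖ + (1 / 3) ^ u.length * ∑ x ∈ stp n P, ‖Hv x z‖ := by ring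
        _ ≤ K * A + A / 2 := by linarith
        _ ≤ 2 * K * A := by nlinarith
    have hball : ∀ y ∈ closedBall ctr (9 / 10 : ℝ), ‖G y‖ ≤ 2 * K * A := by
      intro y hy
      have e1 : closedBall ctr (9 / 10 : ℝ) ⊆ {y | dist y ctr < 1} := fun w hw => by
        rw [mem_closedBall] at hw
        show dist w ctr < 1
        linarith
      refine Complex.norm_le_of_forall_mem_frontier_norm_le (U := ball ctr (9 / 10))
        isBounded_ball (hGd.diffContOnCl_ball e1) (fun w hw => ?_) ?_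
      · rw [frontier_ball _ (by norm_num), mem_sphere] at hw
        exact hcir w hw
      · rw [closure_ball _ (by norm_num)]
        exact hy
    -- the point
    have hpt : A / 2 ≤ ‖G (Psi u y₀)‖ := by
      obtain ⟨h2, h3⟩ := hsum y₀ hy₀.2
      have h5 := hdec y₀ (by have := hy₀.1; linarith) (fun x hx => by
        have := h2 x hx
        linarith)
      have h6 : ‖H y₀‖ ≤ ‖Ho y₀‖ + ∑ x ∈ stp n P, ‖Hv x y₀‖ := by
        rw [h5]
        exact (norm_add_le _ _).trans (by gcongr; exact norm_sum_le _ _)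
      have h7 : A ≤ (1 / 3) ^ u.length * ‖H y₀‖ := by
        calc A = (1 / 3 : ℝ) ^ u.length * 3 ^ u.length * A := by rw [hu3, one_mul]
          _ = (1 / 3) ^ u.length * (3 ^ u.length * A) := by ring
          _ ≤ _ := by gcongr
      rw [hGn, Phi_Psi]
      have h8 : (1 / 3 : ℝ) ^ u.length * ‖H y₀‖ ≤ (1 / 3) ^ u.length * ‖Ho y₀‖ +
          (1 / 3) ^ u.length * ∑ x ∈ stp n P, ‖Hv x y₀‖ := by
        rw [← mul_add]
        gcongr
      linarith
    have hM : 0 < 2 * K * A := by positivity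
    obtain ⟨zz, hz1, hz2⟩ := hA G (2 * K * A) (A / 2) (Psi u y₀) n P
      (hGd.mono fun w hw => by
        rw [mem_ball] at hw
        show dist w ctr < 1
        linarith)
      (fun w hw => hball w (ball_subset_closedBall hw)) (by positivity)
      (by have := hy₀.1; linarith) hpt
    obtain ⟨zx, hzx⟩ : ∃ zx : List D → ℂ, zx = fun x => Phi u (zz x) := ⟨_, rfl⟩
    have hzP : ∀ x, Psi u (zx x) = zz x := by
      intro x
      rw [hzx]
      exact Psi_Phi u (zz x)
    have hzn : ∀ x, zx x ∈ X0 (u ++ x) := by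
      intro x
      refine ⟨?_, fun d => ?_⟩
      · rw [Psi_append, hzP, hz1 x]
        norm_num
      · rw [Psi_append, hzP]
        have h1 := dist_psi_ge d (Psi x (zz x))
        have h2 := hz1 x
        linarith
    have hone : ∀ x ∈ stp n P, (1 / 4) ^ x.length * ‖G (zz x)‖ ≤ (3 / 4) ^ x.length * b x +
        ∑ x' ∈ stp n P, (1 / 4) ^ x.length * (1 / 3) ^ u.length * ‖Hv x' (zx x)‖ := by
      intro x hx
      have h2 : ∀ x' ∈ stp n P, 74 / 100 ≤ dist (Psi (u ++ x') (zx x)) ctr := by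
        intro x' hx'
        rw [Psi_append, hzP]
        exact (hH n P x' zz hx' hz1).1 x hx
      have h5 := hdec (zx x) (by
        have := le_of_Psi x (zz x) (by have := hz1 x; linarith)
        rw [hzP]
        linarith) (fun x' hx' => by
          have := h2 x' hx'
          linarith)
      have h6 : ‖Ho (zx x)‖ ≤ ‖H (zx x)‖ + ∑ x' ∈ stp n P, ‖Hv x' (zx x)‖ := by
        have e1 : Ho (zx x) = H (zx x) - ∑ x' ∈ stp n P, Hv x' (zx x) := by
          rw [h5]
          ring
        rw [e1]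
        exact (norm_sub_le _ _).trans (by gcongr; exact norm_sum_le _ _)
      have h7 := hb x hx (zx x) (hzn x)
      rw [List.length_append] at h7
      have e2 : (1 / 4 : ℝ) ^ x.length * 3 ^ x.length = (3 / 4) ^ x.length := by
        rw [← mul_pow]
        norm_num
      have e3 : Phi u (zz x) = zx x := by rw [hzx]
      rw [hGn, e3, ← Finset.mul_sum]
      calc (1 / 4) ^ x.length * ((1 / 3) ^ u.length * ‖Ho (zx x)‖)
          ≤ (1 / 4) ^ x.length * ((1 / 3) ^ u.length * (3 ^ (u.length + x.length) * b x +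
            ∑ x' ∈ stp n P, ‖Hv x' (zx x)‖)) := by
            gcongr
            linarith
        _ = (1 / 4 : ℝ) ^ x.length * 3 ^ x.length * ((1 / 3 : ℝ) ^ u.length * 3 ^ u.length) *
              b x + (1 / 4) ^ x.length * (1 / 3) ^ u.length *
              ∑ x' ∈ stp n P, ‖Hv x' (zx x)‖ := by rw [pow_add]; ring
        _ = _ := by rw [hu3, e2, mul_one]
    -- the double sum
    have htwo : ∀ x' ∈ stp n P,
        ∑ x ∈ stp n P, (1 / 4) ^ x.length * (1 / 3) ^ u.length * ‖Hv x' (zx x)‖ ≤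
        C₁ * Ch * ((3 / 4) ^ x'.length * b x' + ‖cm (u ++ x') H‖) := by
      intro x' hx'
      obtain ⟨k1, k2, k3⟩ := hH n P x' zz hx' hz1
      have hu0 : (0 : ℝ) < (1 / 3) ^ u.length := by positivity
      calc ∑ x ∈ stp n P, (1 / 4) ^ x.length * (1 / 3) ^ u.length * ‖Hv x' (zx x)‖
          ≤ ∑ x ∈ stp n P, (C₁ * ‖cm (u ++ x') H‖ * ((1 / 4) ^ x.length /
              dist (zz x) (Phi x' ctr)) + C₁ * b x' * ((1 / 4) ^ x.length * 3 ^ x'.length /
              (1 + dist (Psi x' (zz x)) ctr) ^ 2)) := by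
            refine Finset.sum_le_sum fun x hx => ?_
            have h1 := hHv x' hx' (zx x) (by rw [Psi_append, hzP]; exact k1 x hx)
            rw [dist_cc, Psi_append, hzP, List.length_append, pow_add] at h1
            have e1 : (1 / 3 : ℝ) ^ u.length * (‖cm (u ++ x') H‖ /
                ((1 / 3) ^ u.length * dist (zz x) (Phi x' ctr))) =
                ‖cm (u ++ x') H‖ / dist (zz x) (Phi x' ctr) := by
              rw [← mul_div_assoc, mul_div_mul_left _ _ hu0.ne']
            have e2 : (1 / 3 : ℝ) ^ u.length * (3 ^ u.length * 3 ^ x'.length * b x' /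
                (1 + dist (Psi x' (zz x)) ctr) ^ 2) = 3 ^ x'.length * b x' /
                (1 + dist (Psi x' (zz x)) ctr) ^ 2 := by
              rw [← mul_div_assoc]
              congr 1
              calc (1 / 3 : ℝ) ^ u.length * (3 ^ u.length * 3 ^ x'.length * b x') =
                  (1 / 3 : ℝ) ^ u.length * 3 ^ u.length * (3 ^ x'.length * b x') := by ring
                _ = _ := by rw [hu3, one_mul]
            calc (1 / 4) ^ x.length * (1 / 3) ^ u.length * ‖Hv x' (zx x)‖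
                ≤ (1 / 4) ^ x.length * (1 / 3) ^ u.length * (C₁ * (‖cm (u ++ x') H‖ /
                  ((1 / 3) ^ u.length * dist (zz x) (Phi x' ctr)) +
                  3 ^ u.length * 3 ^ x'.length * b x' /
                    (1 + dist (Psi x' (zz x)) ctr) ^ 2)) := by gcongr
              _ = (1 / 4) ^ x.length * C₁ * ((1 / 3 : ℝ) ^ u.length * (‖cm (u ++ x') H‖ /
                  ((1 / 3) ^ u.length * dist (zz x) (Phi x' ctr))) +
                  (1 / 3 : ℝ) ^ u.length * (3 ^ u.length * 3 ^ x'.length * b x' /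
                    (1 + dist (Psi x' (zz x)) ctr) ^ 2)) := by ring
              _ = _ := by
                  rw [e1, e2]
                  ring
        _ = C₁ * ‖cm (u ++ x') H‖ * ∑ x ∈ stp n P, (1 / 4) ^ x.length /
              dist (zz x) (Phi x' ctr) +
            C₁ * b x' * ∑ x ∈ stp n P, (1 / 4) ^ x.length * 3 ^ x'.length /
              (1 + dist (Psi x' (zz x)) ctr) ^ 2 := by
            rw [Finset.mul_sum, Finset.mul_sum, ← Finset.sum_add_distrib]
        _ ≤ C₁ * ‖cm (u ++ x') H‖ * Ch + C₁ * b x' * (Ch * (3 / 4) ^ x'.length) := by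
            have := hb0 x' hx'
            gcongr
        _ = _ := by ring
    have hall : ∑ x ∈ stp n P, (1 / 4) ^ x.length * ‖G (zz x)‖ ≤ (1 + C₁ * Ch) * T := by
      have s1 : ∑ x ∈ stp n P, (3 / 4) ^ x.length * b x ≤ T := by
        rw [hTd]
        refine Finset.sum_le_sum fun x _ => ?_
        have := norm_nonneg (cm (u ++ x) H)
        linarith
      calc ∑ x ∈ stp n P, (1 / 4) ^ x.length * ‖G (zz x)‖
          ≤ ∑ x ∈ stp n P, ((3 / 4) ^ x.length * b x +
            ∑ x' ∈ stp n P, (1 / 4) ^ x.length * (1 / 3) ^ u.length * ‖Hv x' (zx x)‖) :=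
            Finset.sum_le_sum hone
        _ = ∑ x ∈ stp n P, (3 / 4) ^ x.length * b x + ∑ x' ∈ stp n P, ∑ x ∈ stp n P,
            (1 / 4) ^ x.length * (1 / 3) ^ u.length * ‖Hv x' (zx x)‖ := by
            rw [Finset.sum_add_distrib]
            congr 1
            exact Finset.sum_comm
        _ ≤ ∑ x ∈ stp n P, (3 / 4) ^ x.length * b x + ∑ x' ∈ stp n P,
            C₁ * Ch * ((3 / 4) ^ x'.length * b x' + ‖cm (u ++ x') H‖) := by
            gcongr with x' hx'
            exact htwo x' hx'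
        _ = ∑ x ∈ stp n P, (3 / 4) ^ x.length * b x + C₁ * Ch * T := by
            rw [← Finset.mul_sum, hTd]
        _ ≤ _ := by linarith
    -- conclusion
    have hmu : A / 2 / (2 * K * A) = (4 * K)⁻¹ := by
      field_simp
      ring
    rw [hmu] at hz2
    have hK0 : 0 < K := by linarith
    have hpw : ((4 * K)⁻¹ : ℝ) ^ Ca = (4 ^ Ca * K ^ Ca)⁻¹ := by
      rw [Real.inv_rpow (by positivity), Real.mul_rpow (by norm_num) hK0.le]
    rw [hpw] at hz2
    set Q := (4 : ℝ) ^ Ca * K ^ Ca with hQ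
    have hQ0 : 0 < Q := by positivity
    have f4 : 2 * K * A * Q⁻¹ ≤ (1 + C₁ * Ch) * T := hz2.trans hall
    have f9 : A ≤ 2 * K * A := by nlinarith
    have hT' : 0 ≤ (1 + C₁ * Ch) * T := by positivity
    calc A ≤ 2 * K * A := f9
      _ = Q * (2 * K * A * Q⁻¹) := by field_simp
      _ ≤ Q * ((1 + C₁ * Ch) * T) := by gcongr
      _ = (4 ^ Ca * (1 + C₁ * Ch)) * K ^ Ca * T := by
          rw [hQ]
          ring
      _ ≤ C * K ^ C * T := by
          have h01 : 4 ^ Ca * (1 + C₁ * Ch) ≤ C := by rw [hCd]; linarith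
          have h02 : 0 ≤ C := h4'.le.trans h01
          gcongr

end Pool.Agent.CorG
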