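import Pool.Agent.CorG.Stp
import Pool.Agent.CorA.P_GLL

/-!
# GLS, block HVSS: sums over the squares of a complete antichain
-/

set_option autoImplicit false

namespace Pool.Agent.CorG

open Complex Metric Set Filter Topology MeasureTheory
open Pool.Corona91698f Pool.Agent.CorE Pool.Agent.CorA
open scoped Real BoundedContinuousFunction

namespace HVSS_

open Pool.Agent.CorA.GLL_ (le_of_Psi Phi_le)

/-- a point near the square `d` seen from a square of another first digit -/
theorem off {d d' : D} (hd : d ≠ d') {y y' : List D} {w : ℂ}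
    (h : dist (Psi y (psi d w)) ctr = 77 / 100) :
    1 ≤ dist (psi d' w) ctr ∧ 29 / 100 ≤ dist (psi d' w) (Phi y' ctr) := by
  have h1 : dist (psi d w) ctr ≤ 8 / 10 := le_of_Psi y _ (by rw [h]; norm_num)
  have h2 : 1 ≤ dist (psi d' w) ctr := by
    by_contra hc
    push Not at hc
    exact hd (psi_disj (by linarith) hc)
  refine ⟨h2, ?_⟩
  have h3 := dist_triangle (psi d' w) (Phi y' ctr) ctr
  have h4 := Phi_le y'
  linarith

theorem main (n : ℕ) (P : List D → Prop) : ∀ x' ∈ stp n P, ∀ zz : List D → ℂ,
    (∀ x, dist (Psi x (zz x)) ctr = 77 / 100) →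
    (∀ x ∈ stp n P, 74 / 100 ≤ dist (Psi x' (zz x)) ctr) ∧
    ∑ x ∈ stp n P, (1 / 4) ^ x.length / dist (zz x) (Phi x' ctr) ≤ 60 ∧
    ∑ x ∈ stp n P, (1 / 4) ^ x.length * 3 ^ x'.length / (1 + dist (Psi x' (zz x)) ctr) ^ 2 ≤
      100 * (3 / 4) ^ x'.length - 90 * (1 / 3) ^ x'.length := by
  refine stp_induction (motive := fun n P => ∀ x' ∈ stp n P, ∀ zz : List D → ℂ,
    (∀ x, dist (Psi x (zz x)) ctr = 77 / 100) →
    (∀ x ∈ stp n P, 74 / 100 ≤ dist (Psi x' (zz x)) ctr) ∧
    ∑ x ∈ stp n P, (1 / 4) ^ x.length / dist (zz x) (Phi x' ctr) ≤ 60 ∧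
    ∑ x ∈ stp n P, (1 / 4) ^ x.length * 3 ^ x'.length / (1 + dist (Psi x' (zz x)) ctr) ^ 2 ≤
      100 * (3 / 4) ^ x'.length - 90 * (1 / 3) ^ x'.length) ?_ ?_ n P
  · intro n P h x' hx' zz hz
    rw [stp_stop h, Finset.mem_singleton] at hx'
    subst hx'
    have h0 : dist (zz []) ctr = 77 / 100 := by simpa using hz []
    rw [stp_stop h]
    refine ⟨?_, ?_, ?_⟩
    · intro x hx
      rw [Finset.mem_singleton] at hx
      rw [hx, Psi_nil, h0]
      norm_num
    · simp only [Finset.sum_singleton, List.length_nil, pow_zero, Phi_nil]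
      rw [h0]
      norm_num
    · simp only [Finset.sum_singleton, List.length_nil, pow_zero, Psi_nil]
      rw [h0]
      norm_num
  · intro n P h ih x' hx' zz hz
    obtain ⟨d', y', hy', rfl⟩ := (mem_stp_succ h).1 hx'
    have hz' : ∀ (d : D) (y : List D), dist (Psi y (psi d (zz (d :: y)))) ctr = 77 / 100 := by
      intro d y
      have := hz (d :: y)
      rwa [Psi_cons] at this
    obtain ⟨i1, i2, i3⟩ := ih d' y' hy' (fun y => psi d' (zz (d' :: y))) (hz' d')
    have hdist : ∀ w : ℂ, dist w (Phi (d' :: y') ctr) = dist (psi d' w) (Phi y' ctr) / 3 := by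
      intro w
      rw [Phi_cons]
      conv_lhs => rw [← phi_psi d' w]
      exact dist_phi' d' _ _
    have hP : ∀ w : ℂ, dist (Psi y' w) ctr = 3 ^ y'.length * dist w (Phi y' ctr) := by
      intro w
      have h1 := dist_Psi y' w (Phi y' ctr)
      rwa [Psi_Phi] at h1
    refine ⟨?_, ?_, ?_⟩
    · intro x hx
      obtain ⟨d, y, hy, rfl⟩ := (mem_stp_succ h).1 hx
      rw [Psi_cons]
      by_cases hdd : d = d'
      · subst hdd
        exact i1 y hy
      · obtain ⟨o1, _⟩ := off (y' := y') hdd (hz' d y)
        have := ge_one y' _ o1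
        linarith
    · rw [sum_stp_succ h]
      have low : ∀ d : D, ∑ y ∈ stp n (fun x => P (d :: x)),
          (1 / 4 : ℝ) ^ (d :: y).length / dist (zz (d :: y)) (Phi (d' :: y') ctr) ≤
          3 + (if d = d' then 45 - 3 else (0 : ℝ)) := by
        intro d
        by_cases hdd : d = d'
        · subst hdd
          rw [if_pos rfl]
          have e : ∀ y ∈ stp n (fun x => P (d :: x)),
              (1 / 4 : ℝ) ^ (d :: y).length / dist (zz (d :: y)) (Phi (d :: y') ctr) =
              3 / 4 * ((1 / 4) ^ y.length / dist (psi d (zz (d :: y))) (Phi y' ctr)) := by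
            intro y _
            rw [hdist, List.length_cons, pow_succ, div_div_eq_mul_div]
            ring
          rw [Finset.sum_congr rfl e, ← Finset.mul_sum]
          linarith
        · rw [if_neg hdd]
          have e : ∀ y ∈ stp n (fun x => P (d :: x)),
              (1 / 4 : ℝ) ^ (d :: y).length / dist (zz (d :: y)) (Phi (d' :: y') ctr) ≤
              (1 / 4) ^ y.length * 3 := by
            intro y _
            obtain ⟨_, o2⟩ := off (y' := y') hdd (hz' d y)
            rw [hdist, List.length_cons, pow_succ, div_le_iff₀ (by positivity)]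
            have : (0 : ℝ) < (1 / 4) ^ y.length := by positivity
            nlinarith
          refine (Finset.sum_le_sum e).trans ?_
          rw [← Finset.sum_mul, stp_weight]
          norm_num
      refine (Finset.sum_le_sum fun d _ => low d).trans ?_
      rw [Finset.sum_add_distrib, Finset.sum_ite_eq' Finset.univ d', if_pos (Finset.mem_univ _),
        Finset.sum_const, Finset.card_univ, Fintype.card_prod, Fintype.card_bool]
      norm_num
    · rw [sum_stp_succ h]
      have h3l : (0 : ℝ) < 3 ^ y'.length := by positivity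
      have hl3 : (0 : ℝ) < (1 / 3) ^ y'.length := by positivity
      have h31 : (3 : ℝ) ^ y'.length * (1 / 3) ^ y'.length = 1 := by
        rw [← mul_pow]
        norm_num
      have low : ∀ d : D, ∑ y ∈ stp n (fun x => P (d :: x)),
          (1 / 4 : ℝ) ^ (d :: y).length * 3 ^ (d' :: y').length /
            (1 + dist (Psi (d' :: y') (zz (d :: y))) ctr) ^ 2 ≤
          9 * (1 / 3) ^ y'.length + (if d = d' then 3 / 4 * (100 * (3 / 4) ^ y'.length -
            90 * (1 / 3) ^ y'.length) - 9 * (1 / 3) ^ y'.length else (0 : ℝ)) := by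
        intro d
        by_cases hdd : d = d'
        · subst hdd
          rw [if_pos rfl]
          have e : ∀ y ∈ stp n (fun x => P (d :: x)),
              (1 / 4 : ℝ) ^ (d :: y).length * 3 ^ (d :: y').length /
                (1 + dist (Psi (d :: y') (zz (d :: y))) ctr) ^ 2 =
              3 / 4 * ((1 / 4) ^ y.length * 3 ^ y'.length /
                (1 + dist (Psi y' (psi d (zz (d :: y)))) ctr) ^ 2) := by
            intro y _
            rw [Psi_cons, List.length_cons, List.length_cons, pow_succ, pow_succ]
            ring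
          rw [Finset.sum_congr rfl e, ← Finset.mul_sum]
          linarith
        · rw [if_neg hdd]
          have e : ∀ y ∈ stp n (fun x => P (d :: x)),
              (1 / 4 : ℝ) ^ (d :: y).length * 3 ^ (d' :: y').length /
                (1 + dist (Psi (d' :: y') (zz (d :: y))) ctr) ^ 2 ≤
              (1 / 4) ^ y.length * (9 * (1 / 3) ^ y'.length) := by
            intro y _
            obtain ⟨_, o2⟩ := off (y' := y') hdd (hz' d y)
            rw [Psi_cons, hP, List.length_cons, List.length_cons, pow_succ, pow_succ,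
              div_le_iff₀ (by positivity)]
            have g1 : 29 / 100 * 3 ^ y'.length ≤
                1 + 3 ^ y'.length * dist (psi d' (zz (d :: y))) (Phi y' ctr) := by nlinarith
            have g2 : (29 / 100 * 3 ^ y'.length) ^ 2 ≤
                (1 + 3 ^ y'.length * dist (psi d' (zz (d :: y))) (Phi y' ctr)) ^ 2 := by
              gcongr
            have g3 : (0 : ℝ) < (1 / 4) ^ y.length := by positivity
            have g4 : 1 / 4 * (3 * (3 : ℝ) ^ y'.length) ≤
                9 * (1 / 3 : ℝ) ^ y'.length * (29 / 100 * (3 : ℝ) ^ y'.length) ^ 2 := by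
              have g5 : 9 * (1 / 3 : ℝ) ^ y'.length * (29 / 100 * (3 : ℝ) ^ y'.length) ^ 2 =
                  9 * (29 / 100) ^ 2 * (3 : ℝ) ^ y'.length := by
                linear_combination 9 * (29 / 100) ^ 2 * (3 : ℝ) ^ y'.length * h31
              rw [g5]
              nlinarith
            have g6 := mul_le_mul_of_nonneg_left g4 g3.le
            have g7 := mul_le_mul_of_nonneg_left (mul_le_mul_of_nonneg_left g2
              (show (0 : ℝ) ≤ 9 * (1 / 3 : ℝ) ^ y'.length by positivity)) g3.le
            calc (1 / 4 : ℝ) ^ y.length * (1 / 4) * (3 ^ y'.length * 3)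
                = (1 / 4 : ℝ) ^ y.length * (1 / 4 * (3 * 3 ^ y'.length)) := by ring
              _ ≤ (1 / 4 : ℝ) ^ y.length *
                  (9 * (1 / 3) ^ y'.length * (29 / 100 * 3 ^ y'.length) ^ 2) := g6
              _ ≤ (1 / 4 : ℝ) ^ y.length * (9 * (1 / 3) ^ y'.length *
                  (1 + 3 ^ y'.length * dist (psi d' (zz (d :: y))) (Phi y' ctr)) ^ 2) := g7
              _ = _ := by ring
          refine (Finset.sum_le_sum e).trans ?_
          rw [← Finset.sum_mul, stp_weight]
          linarith
      refine (Finset.sum_le_sum fun d _ => low d).trans ?_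
      rw [Finset.sum_add_distrib, Finset.sum_ite_eq' Finset.univ d', if_pos (Finset.mem_univ _),
        Finset.sum_const, Finset.card_univ, Fintype.card_prod, Fintype.card_bool,
        List.length_cons, pow_succ, pow_succ]
      simp only [nsmul_eq_mul]
      push_cast
      nlinarith

end HVSS_

theorem p_HVSS : T_HVSS := by
  refine ⟨100, by norm_num, ?_⟩
  intro n P x' zz hx' hz
  obtain ⟨h1, h2, h3⟩ := HVSS_.main n P x' hx' zz hz
  refine ⟨h1, by linarith, ?_⟩
  have : (0 : ℝ) < (1 / 3) ^ x'.length := by positivity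
  linarith

end Pool.Agent.CorG
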