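import Pool.Agent.CorA.All
import Pool.Agent.CorG.P_AVSS
import Pool.Agent.CorG.P_DCMS
import Pool.Agent.CorG.P_HVSS
import Pool.Agent.CorG.P_GLS

/-!
# The stopping-time growth lemma, proved
-/

set_option autoImplicit false

namespace Pool.Agent.CorG

open Pool.Agent.CorE Pool.Agent.CorA

theorem a_AVSS : T_AVSS := p_AVSS a_LGA a_PRD
theorem a_DCMS : T_DCMS := p_DCMS
theorem a_HVSS : T_HVSS := p_HVSS

/-- The stopping-time growth lemma. -/
theorem a_GLS : T_GLS := p_GLS a_AVSS a_DCMS a_HVSS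

end Pool.Agent.CorG
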