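import Pool.Agent.CorA.Targets

/-!
# Stopping-time growth lemma: definitions and targets

`stp n P`: the first words of length at most `n` at which `P` holds, and the words of length `n`
(a complete antichain of words).
-/

set_option autoImplicit false

namespace Pool.Agent.CorG

open Complex Metric Set Filter Topology MeasureTheory
open Pool.Corona91698f Pool.Agent.CorE Pool.Agent.CorA
open scoped Real BoundedContinuousFunction

open Classical in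
/-- The words at which one stops: the first ones with `P`, at the latest those of length `n`. -/
noncomputable def stp : ℕ → (List D → Prop) → Finset (List D)
  | 0, _ => {[]}
  | (n + 1), P => if P [] then {[]} else
      (Finset.univ : Finset D).biUnion fun d => (stp n fun x => P (d :: x)).image (List.cons d)

/-- The smaller node of the word `v`. -/
def X0 (v : List D) : Set ℂ :=
  {z | dist (Psi v z) ctr ≤ 79 / 100 ∧ ∀ d : D, 75 / 100 ≤ dist (psi d (Psi v z)) ctr}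

/-- AVSS: a holomorphic function is large on the squares of a complete antichain. -/
def T_AVSS : Prop := ∃ C : ℝ, 1 ≤ C ∧ ∀ (G : ℂ → ℂ) (M μ : ℝ) (y₀ : ℂ) (n : ℕ)
  (P : List D → Prop), DifferentiableOn ℂ G (ball ctr (9 / 10)) →
  (∀ z ∈ ball ctr (9 / 10), ‖G z‖ ≤ M) → 0 < μ → dist y₀ ctr ≤ 8 / 10 → μ ≤ ‖G y₀‖ →
  ∃ zz : List D → ℂ, (∀ x, dist (Psi x (zz x)) ctr = 77 / 100) ∧
    M * (μ / M) ^ C ≤ ∑ x ∈ stp n P, (1 / 4) ^ x.length * ‖G (zz x)‖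

/-- DCMS: decomposition. -/
def T_DCMS : Prop := ∃ C : ℝ, 0 < C ∧ ∀ (N n : ℕ) (P : List D → Prop) (u : List D) (H : ℂ → ℂ)
  (b : List D → ℝ), u.length + n < N → DifferentiableOn ℂ H (OmR (73 / 100) N) →
  (∀ x ∈ stp n P, ∀ z ∈ X0 (u ++ x), ‖H z‖ ≤ 3 ^ (u ++ x).length * b x) →
  ∃ (Ho : ℂ → ℂ) (Hv : List D → ℂ → ℂ), DifferentiableOn ℂ Ho {z | dist (Psi u z) ctr < 1} ∧
    (∀ z, dist (Psi u z) ctr < 1 → (∀ x ∈ stp n P, 735 / 1000 < dist (Psi (u ++ x) z) ctr) →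
      H z = Ho z + ∑ x ∈ stp n P, Hv x z) ∧
    ∀ x ∈ stp n P, ∀ z, 74 / 100 ≤ dist (Psi (u ++ x) z) ctr →
      ‖Hv x z‖ ≤ C * (‖cm (u ++ x) H‖ / dist z (cc (u ++ x)) +
        3 ^ (u ++ x).length * b x / (1 + dist (Psi (u ++ x) z) ctr) ^ 2)

/-- HVSS: sums over the squares. -/
def T_HVSS : Prop := ∃ C : ℝ, 0 < C ∧ ∀ (n : ℕ) (P : List D → Prop) (x' : List D)
  (zz : List D → ℂ), x' ∈ stp n P → (∀ x, dist (Psi x (zz x)) ctr = 77 / 100) →
  (∀ x ∈ stp n P, 74 / 100 ≤ dist (Psi x' (zz x)) ctr) ∧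
  ∑ x ∈ stp n P, (1 / 4) ^ x.length / dist (zz x) (Phi x' ctr) ≤ C ∧
  ∑ x ∈ stp n P, (1 / 4) ^ x.length * 3 ^ x'.length / (1 + dist (Psi x' (zz x)) ctr) ^ 2 ≤
    C * (3 / 4) ^ x'.length

/-- GLS: the stopping-time growth lemma. -/
def T_GLS : Prop := ∃ C : ℝ, 1 ≤ C ∧ ∀ (N n : ℕ) (P : List D → Prop) (u : List D) (H : ℂ → ℂ)
  (b : List D → ℝ) (A K : ℝ) (y₀ : ℂ), 1 ≤ n → ¬ P [] → u.length + n < N →
  DifferentiableOn ℂ H (OmR (73 / 100) N) →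
  (∀ z, dist (Psi u z) ctr = 9 / 10 → ‖H z‖ ≤ 3 ^ u.length * (K * A)) → 0 < A → 1 ≤ K →
  Psi u y₀ ∈ nodeX → 3 ^ u.length * A ≤ ‖H y₀‖ →
  (∀ x ∈ stp n P, ∀ z ∈ X0 (u ++ x), ‖H z‖ ≤ 3 ^ (u ++ x).length * b x) →
  A ≤ C * K ^ C * ∑ x ∈ stp n P, ((3 / 4) ^ x.length * b x + ‖cm (u ++ x) H‖)

end Pool.Agent.CorG
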