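import Pool.Agent.CorG.Defs

/-!
# Stopping-time growth lemma: the words at which one stops
-/

set_option autoImplicit false

namespace Pool.Agent.CorG

open Complex Metric Set Filter Topology MeasureTheory
open Pool.Corona91698f Pool.Agent.CorE Pool.Agent.CorA
open scoped Real BoundedContinuousFunction

theorem stp_stop {n : ℕ} {P : List D → Prop} (h : n = 0 ∨ P []) : stp n P = {[]} := by
  cases n with
  | zero => rfl
  | succ n =>
    have h1 : P [] := by
      rcases h with h | h
      · omega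
      · exact h
    simp [stp, h1]

theorem stp_succ {n : ℕ} {P : List D → Prop} (h : ¬ P []) : stp (n + 1) P =
    (Finset.univ : Finset D).biUnion fun d =>
      (stp n fun x => P (d :: x)).image (List.cons d) := by
  simp only [stp]
  rw [if_neg h]

theorem mem_stp_succ {n : ℕ} {P : List D → Prop} (h : ¬ P []) {x : List D} :
    x ∈ stp (n + 1) P ↔ ∃ d y, y ∈ stp n (fun x => P (d :: x)) ∧ x = d :: y := by
  rw [stp_succ h]
  simp only [Finset.mem_biUnion, Finset.mem_univ, true_and, Finset.mem_image]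
  constructor
  · rintro ⟨d, y, hy, rfl⟩
    exact ⟨d, y, hy, rfl⟩
  · rintro ⟨d, y, hy, rfl⟩
    exact ⟨d, y, hy, rfl⟩

theorem sum_stp_succ {n : ℕ} {P : List D → Prop} (h : ¬ P []) (F : List D → ℝ) :
    ∑ x ∈ stp (n + 1) P, F x = ∑ d : D, ∑ x ∈ stp n (fun x => P (d :: x)), F (d :: x) := by
  rw [stp_succ h, Finset.sum_biUnion]
  · refine Finset.sum_congr rfl fun d _ => ?_
    rw [Finset.sum_image (by
      intro x _ y _ hxy
      exact (List.cons.inj hxy).2)]
  · intro d _ d' _ hdd
    rw [Function.onFun, Finset.disjoint_left]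
    intro x hx hx'
    obtain ⟨y, _, rfl⟩ := Finset.mem_image.1 hx
    obtain ⟨y', _, hy'⟩ := Finset.mem_image.1 hx'
    exact hdd (List.cons.inj hy').1.symm

/-- induction along the stopping words -/
theorem stp_induction {motive : ℕ → (List D → Prop) → Prop}
    (h0 : ∀ n P, n = 0 ∨ P [] → motive n P)
    (h1 : ∀ n P, ¬ P [] → (∀ d : D, motive n fun x => P (d :: x)) → motive (n + 1) P)
    (n : ℕ) (P : List D → Prop) : motive n P := by
  induction n generalizing P with
  | zero => exact h0 0 P (Or.inl rfl)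
  | succ n ih =>
    by_cases hP : P []
    · exact h0 _ P (Or.inr hP)
    · exact h1 n P hP fun d => ih _

theorem stp_len (n : ℕ) (P : List D → Prop) : ∀ x ∈ stp n P, x.length ≤ n := by
  refine stp_induction (motive := fun n P => ∀ x ∈ stp n P, x.length ≤ n) ?_ ?_ n P
  · intro n P h x hx
    rw [stp_stop h, Finset.mem_singleton] at hx
    rw [hx]
    simp
  · intro n P h ih x hx
    obtain ⟨d, y, hy, rfl⟩ := (mem_stp_succ h).1 hx
    have := ih d y hy
    simpa using this

theorem stp_ne {n : ℕ} (hn : 1 ≤ n) {P : List D → Prop} (h : ¬ P []) : ∀ x ∈ stp n P, x ≠ [] := by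
  obtain ⟨m, rfl⟩ := Nat.exists_eq_add_of_le' hn
  intro x hx
  obtain ⟨d, y, _, rfl⟩ := (mem_stp_succ h).1 hx
  simp

theorem stp_exists (n : ℕ) (P : List D → Prop) : ∀ y : List D, n ≤ y.length →
    ∃ x ∈ stp n P, ∃ z, y = x ++ z := by
  refine stp_induction
    (motive := fun n P => ∀ y : List D, n ≤ y.length → ∃ x ∈ stp n P, ∃ z, y = x ++ z) ?_ ?_ n P
  · intro n P h y _
    exact ⟨[], by rw [stp_stop h]; simp, y, rfl⟩
  · intro n P h ih y hy
    cases y with
    | nil => simp at hy
    | cons d y =>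
      obtain ⟨x, hx, z, hz⟩ := ih d y (by simpa using hy)
      exact ⟨d :: x, (mem_stp_succ h).2 ⟨d, x, hx, rfl⟩, z, by rw [hz]; rfl⟩

theorem ge_one (y : List D) : ∀ w : ℂ, 1 ≤ dist w ctr → 1 ≤ dist (Psi y w) ctr := by
  induction y with
  | nil => intro w h; simpa using h
  | cons d y ih =>
    intro w h
    rw [Psi_cons]
    refine ih _ ?_
    have := dist_psi_ge d w
    linarith

theorem lt_one (y : List D) {w : ℂ} (h : dist (Psi y w) ctr < 1) : dist w ctr < 1 := by
  by_contra hc
  push Not at hc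
  have := ge_one y w hc
  linarith

/-- the squares of two different words are disjoint -/
theorem stp_disj (n : ℕ) (P : List D → Prop) : ∀ x ∈ stp n P, ∀ x' ∈ stp n P, x ≠ x' →
    ∀ w : ℂ, dist (Psi x w) ctr < 1 → 1 ≤ dist (Psi x' w) ctr := by
  refine stp_induction (motive := fun n P => ∀ x ∈ stp n P, ∀ x' ∈ stp n P, x ≠ x' →
    ∀ w : ℂ, dist (Psi x w) ctr < 1 → 1 ≤ dist (Psi x' w) ctr) ?_ ?_ n P
  · intro n P h x hx x' hx' hne
    rw [stp_stop h, Finset.mem_singleton] at hx hx'
    exact absurd (hx.trans hx'.symm) hne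
  · intro n P h ih x hx x' hx' hne w hw
    obtain ⟨d, y, hy, rfl⟩ := (mem_stp_succ h).1 hx
    obtain ⟨d', y', hy', rfl⟩ := (mem_stp_succ h).1 hx'
    rw [Psi_cons] at hw ⊢
    by_cases hdd : d = d'
    · subst hdd
      exact ih d y hy y' hy' (fun e => hne (by rw [e])) _ hw
    · refine ge_one _ _ ?_
      by_contra hc
      push Not at hc
      exact hdd (psi_disj (lt_one y hw) hc)

theorem stp_weight (n : ℕ) (P : List D → Prop) : ∑ x ∈ stp n P, (1 / 4 : ℝ) ^ x.length = 1 := by
  refine stp_induction (motive := fun n P => ∑ x ∈ stp n P, (1 / 4 : ℝ) ^ x.length = 1) ?_ ?_ n P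
  · intro n P h
    rw [stp_stop h]
    simp
  · intro n P h ih
    rw [sum_stp_succ h]
    have : ∀ d : D, ∑ x ∈ stp n (fun x => P (d :: x)), (1 / 4 : ℝ) ^ (d :: x).length = 1 / 4 := by
      intro d
      have e : ∀ x ∈ stp n (fun x => P (d :: x)), (1 / 4 : ℝ) ^ (d :: x).length =
          1 / 4 * (1 / 4 : ℝ) ^ x.length := by
        intro x _
        rw [List.length_cons, pow_succ]
        ring
      rw [Finset.sum_congr rfl e, ← Finset.mul_sum, ih d, mul_one]
    rw [Finset.sum_congr rfl fun d _ => this d, Finset.sum_const, Finset.card_univ,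
      Fintype.card_prod, Fintype.card_bool]
    norm_num

end Pool.Agent.CorG
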